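import Pool.Agent.N616.NV.Abs
import Pool.Agent.N616.NV.Stab
import Pool.Agent.N616.NV.TK1
import Pool.Agent.N616.NV.TK
import Pool.Agent.N616.NV.FO
import Pool.Agent.N616.NV.ET
import Pool.Agent.N616.NV.BP
import Pool.Agent.N616.NV.PO
import Pool.Agent.N616.NV.PB

/-!
# The completions of stable fields have dimension at most one

Let `K` be a stable field and `v` a nontrivial nonarchimedean absolute value of `K`. Then the
completion `F` of `K` has dimension at most one: for finite separable extensions `M` of `F` and `L` of
`M` the norm map `L → M` is surjective. The same holds for every place of `K` with values in a complete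
nonarchimedean field `F` of rank one. So the stable fields conjecture holds for all fields with an
absolute value with a completion of dimension greater than one: they are not stable.

Proof. By the result `PlacesOfHigherDimension` of `MP_3554b5_lc` the topology of a place of a NIP field
with a completion of dimension greater than one is definable. A definable bounded neighbourhood of zero
gives the order property, with the powers of an element of it.
-/

set_option autoImplicit false

namespace Pool.Agent.Results.MP_9924a2_lc.CompletionsOfDimensionOne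

open Pool.Agent.W882.Nip3 Pool.Agent.N616.NH Pool.Agent.N616.NV

/-- Let `K` be a stable field (the hypothesis of `S15095`). Then all complete fields `P.F` with a
nonarchimedean absolute value of places `P` of `K` have dimension at most one up to every `D`. In
particular this holds for the completion of `K` at a nontrivial nonarchimedean absolute value. -/
theorem result (K : Type) [Field K] [FirstOrder.Ring.CompatibleRing K]
    (hK : ∀ (m k : ℕ) (φ : FirstOrder.Language.ring.Formula (Fin m ⊕ Fin k)),
      ¬ ∀ n : ℕ, ∃ (a : Fin n → Fin m → K) (b : Fin n → Fin k → K),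
        ∀ i j : Fin n, (φ.Realize (Sum.elim (a i) (b j)) ↔ i < j)) :
    (∀ P : Place K, (∀ a b : P.F, ‖a + b‖ ≤ max ‖a‖ ‖b‖) → ∀ D : ℕ, DimLeOneUpTo P.F D) ∧
    ∀ v : AbsoluteValue K ℝ, v.IsNontrivial → (∀ a b : K, v (a + b) ≤ max (v a) (v b)) →
      ∀ D : ℕ, DimLeOneUpTo v.Completion D := by
  have hmain : ∀ P : Place K, (∀ a b : P.F, ‖a + b‖ ≤ max ‖a‖ ‖b‖) →
      ∀ D : ℕ, DimLeOneUpTo P.F D := by
    intro P hP D
    by_contra hD
    obtain ⟨O, hO, -, -⟩ := PO K P hP
    obtain ⟨δ, U, hδ0, hδ1, h1, -, h2, h3⟩ := place_nbhd (TK TK1) FO (BP ET) PB K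
      (Or.inl (Pool.Agent.R492.DS.nip_of_stable hK)) P hP O hO D hD
    exact not_nbhd_of_stable hK O δ U hδ0 hδ1 h1 h2 h3
  refine ⟨hmain, fun v hv hna D => ?_⟩
  refine hmain (plOf v hv) ?_ D
  let P : Place K := plOf v hv
  have hnn : ∀ n : ℕ, v (n : K) ≤ 1 := by
    intro n
    induction n with
    | zero => rw [Nat.cast_zero, map_zero]; exact zero_le_one
    | succ n ih =>
      rw [Nat.cast_succ]
      exact (hna _ _).trans (max_le ih (map_one v).le)
  have hnat : ∀ n : ℕ, ‖(n : P.F)‖ ≤ 1 := by
    intro n
    have h1 : (n : P.F) = P.res ⟨(n : K), trivial⟩ := by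
      have : (⟨(n : K), trivial⟩ : P.O) = (n : P.O) := Subtype.ext (by push_cast; rfl)
      rw [this, map_natCast]
    rw [h1]
    exact (norm_plOf v hv (n : K) trivial).le.trans (hnn n)
  have := IsUltrametricDist.isUltrametricDist_of_forall_norm_natCast_le_one hnat
  exact fun a b => IsUltrametricDist.norm_add_le_max a b

end Pool.Agent.Results.MP_9924a2_lc.CompletionsOfDimensionOne
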