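import Pool.Agent.N616.NV.Stab
import Pool.Agent.N616.NV.TK1
import Pool.Agent.N616.NV.TK
import Pool.Agent.N616.NV.OP
import Pool.Agent.N616.NV.OF

/-!
# Stable fields have no orderings

A stable field `K` has no ordering, so it is not formally real: `-1` is a sum of squares in `K`. So
the stable fields conjecture holds for all formally real fields: they are not stable.

Proof. A stable field is NIP. Let `≤` be an ordering of `K`. If no definable set lies between
`[-1/2, 1/2]` and `(-2, 2)` then a variant of Kueker's theorem gives, for every `N`, a field `K'`
elementarily equivalent to `K` with `N` orderings `≤_i` and elements `x_ij` with `|x_ij|_i ≤ 1/2` and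
`|x_ij⁻¹|_j ≤ 1/2`. The places of `K'` with values in the real numbers given by the orderings are then
pairwise incomparable, in contradiction to the starting result `FewBadPlaces` of `MP_3554b5_lc`: the
number of pairwise incomparable places of a NIP field with completions of dimension greater than one is
bounded. A definable set between `[-1/2, 1/2]` and `(-2, 2)` gives the order property, with the powers
of `4`.
-/

set_option autoImplicit false

namespace Pool.Agent.Results.MP_9924a2_lc.NoOrderings

open Pool.Agent.N616.NV

/-- Let `K` be a stable field (the hypothesis of `S15095`). There is no linear order on `K` which makes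
it an ordered field. -/
theorem result (K : Type) [Field K] [FirstOrder.Ring.CompatibleRing K]
    (hK : ∀ (m k : ℕ) (φ : FirstOrder.Language.ring.Formula (Fin m ⊕ Fin k)),
      ¬ ∀ n : ℕ, ∃ (a : Fin n → Fin m → K) (b : Fin n → Fin k → K),
        ∀ i j : Fin n, (φ.Realize (Sum.elim (a i) (b j)) ↔ i < j)) :
    ¬ ∃ _ : LinearOrder K, IsStrictOrderedRing K := by
  rintro ⟨_, _⟩
  exact no_ordering (TK TK1) OP OF K hK

end Pool.Agent.Results.MP_9924a2_lc.NoOrderings
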