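import Pool.Agent.R492.DS.S1
import Pool.Agent.N616.NH.Main
import Pool.Agent.N616.NH.PL
import Pool.Agent.N616.NH.N1
import Pool.Agent.N616.NH.N2
import Pool.Agent.N616.NH.N3
import Pool.Agent.N616.NH.CO
import Pool.Agent.N616.NH.RX1
import Pool.Agent.N616.NH.RX2

/-!
# All valuations of stable fields are tame

Let `K` be a stable field and `O` a valuation ring of `K` of any rank, with value group `Γ` and
residue field `k`. Then `O` is tame: for every `d ≥ 2` the group `Γ` is `d`-divisible or `k` has no
separable extension of degree `d`, and for every prime number `ℓ` the group `Γ` is cyclic modulo `ℓ`.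
So the stable fields conjecture holds for all fields with a valuation which is not tame: they are not
stable.

This contains the case of valuations with a least positive value (starting result
`DiscreteValuations`), where the value group is not divisible by any `d ≥ 2`.

Proof. A stable field is NIP, and a valuation ring which is not tame has a nontrivial definable
coarsening `A` by the result `NonTameDefinable` of `MP_3554b5_lc`. The powers of a nonzero nonunit of
`A` give the order property.
-/

set_option autoImplicit false

namespace Pool.Agent.Results.MP_9924a2_lc.TameValuations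

open Pool.Agent.R492.DS Pool.Agent.N616.NH

/-- Let `K` be a stable field (the hypothesis of `S15095`). Every valuation ring of `K` is tame up to
every `D`. -/
theorem result (K : Type) [Field K] [FirstOrder.Ring.CompatibleRing K]
    (hK : ∀ (m k : ℕ) (φ : FirstOrder.Language.ring.Formula (Fin m ⊕ Fin k)),
      ¬ ∀ n : ℕ, ∃ (a : Fin n → Fin m → K) (b : Fin n → Fin k → K),
        ∀ i j : Fin n, (φ.Realize (Sum.elim (a i) (b j)) ↔ i < j)) :
    ∀ (D : ℕ) (O : ValuationSubring K), ¬ NotTame D O := by
  intro D O hO
  obtain ⟨A, -, hA⟩ := CO RX1 RX2 K D O hO
  have hdef := dfb_of_nt' (BND' PL N1 N2 N3) K (Or.inl (nip_of_stable hK)) hA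
  obtain ⟨e, he0, he1⟩ := BND2_.exists_small hA
  refine not_definable hK A he0 ((A.valuation_le_one_iff e).1 he1.le) (fun hinv => ?_) hdef
  rw [← A.valuation_le_one_iff, map_inv₀] at hinv
  exact absurd ((one_lt_inv₀ (zero_lt_iff.2 ((map_ne_zero _).2 he0))).2 he1) (not_lt.2 hinv)

end Pool.Agent.Results.MP_9924a2_lc.TameValuations
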